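import Pool.Agent.helper68.SG.SpecK

/-!
# Project sg, module K09: all moments vanish
-/

set_option autoImplicit false

open MeasureTheory Set Metric Filter Topology
open scoped ENNReal NNReal ComplexConjugate

namespace Pool.Agent.SG

theorem K09_ae (ν : Measure ℂ) (hν : ν circᶜ = 0) : ∀ᵐ x ∂ν, x ∈ circ := by
  rw [ae_iff]
  exact hν

theorem K09_int (ν : Measure ℂ) [IsFiniteMeasure ν] (hν : ν circᶜ = 0) (G : ℂ → ℂ)
    (hG : ContinuousOn G circ) : Integrable G ν := by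
  have hr : ν.restrict circ = ν := Measure.restrict_eq_self_of_ae_mem (K09_ae ν hν)
  have h := hG.integrableOn_compact (μ := ν) (isCompact_sphere (0 : ℂ) 1)
  have h2 : Integrable G (ν.restrict circ) := h
  rwa [hr] at h2

theorem K09_meas (a b : ℂ) : Measurable (mob a b) := by
  unfold mob
  fun_prop

theorem K09_map (ν : Measure ℂ) (hν : ν circᶜ = 0) (g : ℂ → ℂ) (hg : Measurable g)
    (hc : ∀ z : ℂ, ‖z‖ = 1 → ‖g z‖ = 1) : (ν.map g) circᶜ = 0 := by
  have hm : MeasurableSet (circᶜ : Set ℂ) := (isClosed_sphere (x := (0 : ℂ)) (ε := 1)).measurableSet.compl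
  rw [Measure.map_apply hg hm]
  refine measure_mono_null ?_ hν
  intro x hx hxc
  apply hx
  have h1 : ‖x‖ = 1 := by
    have : x ∈ sphere (0 : ℂ) 1 := hxc
    simpa using this
  have h2 : g x ∈ sphere (0 : ℂ) 1 := by simpa using hc x h1
  exact h2

theorem K09_stat (ν : Measure ℂ) [IsProbabilityMeasure ν] (hν : ν circᶜ = 0) {ι : Type}
    (S : Finset ι) (μ : ι → ℝ≥0∞) (g : ι → ℂ → ℂ) (hg : ∀ s, Measurable (g s))
    (hc : ∀ s, ∀ z : ℂ, ‖z‖ = 1 → ‖g s z‖ = 1) (hμ : ∀ s ∈ S, μ s ≠ ⊤)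
    (hst : ν = ∑ s ∈ S, μ s • ν.map (g s)) (G : ℂ → ℂ) (hG : ContinuousOn G circ) :
    ∫ ξ, G ξ ∂ν = ∑ s ∈ S, ((μ s).toReal : ℂ) * ∫ ξ, G (g s ξ) ∂ν := by
  have hint : ∀ s, Integrable G (ν.map (g s)) := by
    intro s
    have : IsProbabilityMeasure (ν.map (g s)) := Measure.isProbabilityMeasure_map (hg s).aemeasurable
    exact K09_int _ (K09_map ν hν (g s) (hg s) (hc s)) G hG
  conv_lhs => rw [hst]
  rw [integral_finset_sum_measure]
  · apply Finset.sum_congr rfl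
    intro s _
    rw [integral_smul_measure, integral_map (hg s).aemeasurable (hint s).aestronglyMeasurable]
    exact Complex.real_smul
  · intro s hs
    exact (hint s).smul_measure (hμ s hs)

theorem K09 (h5 : K05_stmt) (h8 : K08_stmt) : K09_stmt := by
  intro Γ _ A W F ψ C ν f C' a' hF hS hR
  have hprob : IsProbabilityMeasure ν := hS.prob
  have hν := hS.supp
  have hμtop : ∀ s ∈ W.S, W.μ s ≠ ⊤ := by
    intro s hs h
    have h1 : W.μ s ≤ ∑ s ∈ W.S, W.μ s := Finset.single_le_sum (fun _ _ => zero_le) hs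
    rw [W.sum, h] at h1
    exact absurd h1 (by simp)
  have hw1 : ∑ s ∈ W.S, ((W.μ s).toReal : ℂ) = 1 := by
    have h1 := congrArg ENNReal.toReal W.sum
    rw [ENNReal.toReal_sum hμtop, ENNReal.toReal_one] at h1
    exact_mod_cast h1
  have hcirc : ∀ s, ∀ z : ℂ, ‖z‖ = 1 → ‖A.act s z‖ = 1 := by
    intro s z hz
    obtain ⟨c, L, -, -, -, -, h2, -⟩ := h5 (A.a s) (A.b s) (A.norm_eq s)
    exact h2 z hz
  have hFc : ContinuousOn F (ball 0 1) := hF.diff.continuousOn
  -- continuity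
  have hc0 : ∀ (k : ℕ) (r : ℝ), 0 < r → r < 1 → ContinuousOn (fun ξ : ℂ => F (r * ξ) ^ k) circ := by
    intro k r h0 h1
    have hm : MapsTo (fun ξ : ℂ => (r : ℂ) * ξ) circ (ball 0 1) := by
      intro ξ hξ
      have h2 : ‖ξ‖ = 1 := by
        have : ξ ∈ sphere (0 : ℂ) 1 := hξ
        simpa using this
      simp only [mem_ball, dist_zero_right, norm_mul, Complex.norm_real, Real.norm_eq_abs, h2,
        mul_one, abs_of_pos h0]
      exact h1
    exact (hFc.comp (by fun_prop) hm).pow k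
  have hsub : ∀ R : ℝ, 1 < R → (circ : Set ℂ) ⊆ ball 0 R := by
    intro R hR ξ hξ
    have h2 : ‖ξ‖ = 1 := by
      have : ξ ∈ sphere (0 : ℂ) 1 := hξ
      simpa using this
    simp only [mem_ball, dist_zero_right, h2]
    exact hR
  have hc1 : ∀ (k : ℕ) (s : Γ) (r : ℝ), 0 < r → r < 1 →
      ContinuousOn (fun ξ : ℂ => F (A.act s (r * ξ)) ^ k) circ ∧
      ContinuousOn (fun ξ : ℂ => F (r * A.act s ξ) ^ k) circ := by
    intro k s r h0 h1
    obtain ⟨c, L, -, -, -, -, -, -, h4⟩ := h5 (A.a s) (A.b s) (A.norm_eq s)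
    obtain ⟨R, hR1, hd1, hd2, hlt⟩ := h4 r h0 h1
    refine ⟨?_, ?_⟩
    · have hm : MapsTo (fun z : ℂ => mob (A.a s) (A.b s) (r * z)) (ball 0 R) (ball 0 1) := by
        intro z hz
        simpa using (hlt z hz).1
      exact ((hFc.comp hd1.continuousOn hm).pow k).mono (hsub R hR1)
    · have hm : MapsTo (fun z : ℂ => (r : ℂ) * mob (A.a s) (A.b s) z) (ball 0 R) (ball 0 1) := by
        intro z hz
        simpa using (hlt z hz).2
      exact ((hFc.comp hd2.continuousOn hm).pow k).mono (hsub R hR1)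
  intro k
  induction k using Nat.strong_induction_on with
  | _ k ih =>
    intro hk
    set Mk : ℂ := ∑ s ∈ W.S, ((W.μ s).toReal : ℂ) * ψ s ^ k with hMk
    -- the limit
    have hlim : Tendsto (fun r : ℝ => ∑ s ∈ W.S, ((W.μ s).toReal : ℂ) *
        ∫ ξ, (F (A.act s (r * ξ)) ^ k - F (r * A.act s ξ) ^ k) ∂ν) (𝓝[<] 1) (𝓝 0) := by
      have h1 : Tendsto (fun r : ℝ => ∑ s ∈ W.S, ((W.μ s).toReal : ℂ) *
        ∫ ξ, (F (A.act s (r * ξ)) ^ k - F (r * A.act s ξ) ^ k) ∂ν) (𝓝[<] 1)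
          (𝓝 (∑ s ∈ W.S, ((W.μ s).toReal : ℂ) * 0)) := by
        apply tendsto_finsetSum
        intro s _
        exact (h8 Γ A F ψ C ν f C' a' hF hprob hR s k).const_mul _
      simpa using h1
    have heq : ∀ᶠ r : ℝ in 𝓝[<] 1, ∑ s ∈ W.S, ((W.μ s).toReal : ℂ) *
        ∫ ξ, (F (A.act s (r * ξ)) ^ k - F (r * A.act s ξ) ^ k) ∂ν = Mk := by
      have hev : ∀ᶠ r : ℝ in 𝓝[<] 1, 0 < r ∧ r < 1 := by
        have h1 : ∀ᶠ r : ℝ in 𝓝[<] 1, 0 < r :=
          mem_nhdsWithin_of_mem_nhds (Ioi_mem_nhds (by norm_num))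
        have h2 : ∀ᶠ r : ℝ in 𝓝[<] 1, r < 1 := self_mem_nhdsWithin
        exact h1.and h2
      filter_upwards [hev] with r hr
      obtain ⟨hr0, hr1⟩ := hr
      have hI : ∀ j : ℕ, Integrable (fun ξ : ℂ => F (r * ξ) ^ j) ν := fun j =>
        K09_int ν hν _ (hc0 j r hr0 hr1)
      have e1 : ∀ s : Γ, ∫ ξ, (F (A.act s (r * ξ)) ^ k - F (r * A.act s ξ) ^ k) ∂ν =
          (∫ ξ, F (A.act s (r * ξ)) ^ k ∂ν) - ∫ ξ, F (r * A.act s ξ) ^ k ∂ν := by
        intro s
        exact integral_sub (K09_int ν hν _ (hc1 k s r hr0 hr1).1)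
          (K09_int ν hν _ (hc1 k s r hr0 hr1).2)
      have e2 : ∀ s : Γ, ∫ ξ, F (A.act s (r * ξ)) ^ k ∂ν =
          ∑ m ∈ Finset.range (k + 1), (∫ ξ, F (r * ξ) ^ m ∂ν) * (ψ s ^ (k - m) * (k.choose m : ℂ)) := by
        intro s
        have h1 : ∫ ξ, F (A.act s (r * ξ)) ^ k ∂ν = ∫ ξ, ∑ m ∈ Finset.range (k + 1),
            F (r * ξ) ^ m * (ψ s ^ (k - m) * (k.choose m : ℂ)) ∂ν := by
          apply integral_congr_ae
          filter_upwards [K09_ae ν hν] with ξ hξ
          have h2 : ‖ξ‖ = 1 := by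
            have : ξ ∈ sphere (0 : ℂ) 1 := hξ
            simpa using this
          have h3 : ‖(r : ℂ) * ξ‖ < 1 := by
            rw [norm_mul, Complex.norm_real, Real.norm_eq_abs, h2, mul_one, abs_of_pos hr0]
            exact hr1
          rw [hF.equi s _ h3, add_pow]
          apply Finset.sum_congr rfl
          intro m _
          ring
        rw [h1, integral_finsetSum]
        · apply Finset.sum_congr rfl
          intro m _
          exact integral_mul_const _ _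
        · intro m _
          exact (hI m).mul_const _
      have e3 : ∑ s ∈ W.S, ((W.μ s).toReal : ℂ) * ∫ ξ, F (r * A.act s ξ) ^ k ∂ν =
          ∫ ξ, F (r * ξ) ^ k ∂ν :=
        (K09_stat ν hν W.S W.μ A.act (fun s => K09_meas _ _) hcirc hμtop hS.stat
          (fun ξ => F (r * ξ) ^ k) (hc0 k r hr0 hr1)).symm
      have e4 : ∑ s ∈ W.S, ((W.μ s).toReal : ℂ) *
          ∫ ξ, (F (A.act s (r * ξ)) ^ k - F (r * A.act s ξ) ^ k) ∂ν =
          ∑ s ∈ W.S, ((W.μ s).toReal : ℂ) * (∑ m ∈ Finset.range (k + 1),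
            (∫ ξ, F (r * ξ) ^ m ∂ν) * (ψ s ^ (k - m) * (k.choose m : ℂ))) -
          ∫ ξ, F (r * ξ) ^ k ∂ν := by
        rw [← e3, ← Finset.sum_sub_distrib]
        apply Finset.sum_congr rfl
        intro s _
        rw [e1, e2]
        ring
      rw [e4]
      have e5 : ∑ s ∈ W.S, ((W.μ s).toReal : ℂ) * (∑ m ∈ Finset.range (k + 1),
            (∫ ξ, F (r * ξ) ^ m ∂ν) * (ψ s ^ (k - m) * (k.choose m : ℂ))) =
          ∑ m ∈ Finset.range (k + 1), (∫ ξ, F (r * ξ) ^ m ∂ν) * (k.choose m : ℂ) *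
            ∑ s ∈ W.S, ((W.μ s).toReal : ℂ) * ψ s ^ (k - m) := by
        simp only [Finset.mul_sum]
        rw [Finset.sum_comm]
        apply Finset.sum_congr rfl
        intro m _
        apply Finset.sum_congr rfl
        intro s _
        ring
      rw [e5, Finset.sum_range_succ]
      have e6 : ∑ s ∈ W.S, ((W.μ s).toReal : ℂ) * ψ s ^ (k - k) = 1 := by
        simp only [Nat.sub_self, pow_zero, mul_one]
        exact hw1
      rw [e6, Nat.choose_self]
      have e7 : ∑ m ∈ Finset.range k, (∫ ξ, F (r * ξ) ^ m ∂ν) * (k.choose m : ℂ) *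
            ∑ s ∈ W.S, ((W.μ s).toReal : ℂ) * ψ s ^ (k - m) = Mk := by
        rw [Finset.sum_eq_single_of_mem 0 (Finset.mem_range.2 hk)]
        · simp [hMk]
        · intro m hm hm0
          rw [Finset.mem_range] at hm
          rw [ih (k - m) (by omega) (by omega), mul_zero]
      rw [e7]
      push_cast
      ring
    have h1 : Tendsto (fun _ : ℝ => Mk) (𝓝[<] (1 : ℝ)) (𝓝 0) :=
      hlim.congr' heq
    exact tendsto_nhds_unique tendsto_const_nhds h1

end Pool.Agent.SG
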