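import Pool.Agent.helper17.SG.SpecM

/-!
# Project sg, module M05: mass outside of the shadow
-/

set_option autoImplicit false

open MeasureTheory Set Metric Filter Topology
open scoped ENNReal NNReal ComplexConjugate

namespace Pool.Agent.SG

theorem M05 (h1 : M01_stmt) (h4 : B04_stmt) : M05_stmt := by
  intro Γ _ A W ν hS C ε hC hε x
  obtain ⟨-, -, -, -, hnux, -⟩ := h1 Γ A W ν hS
  obtain ⟨hB, -, -, -⟩ := h4 Γ A x
  have hm : MeasurableSet (closedBall (A.pt x) (C * A.kk x))ᶜ := isClosed_closedBall.measurableSet.compl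
  rw [hnux x _ hm]
  have hsub : A.act x ⁻¹' (closedBall (A.pt x) (C * A.kk x))ᶜ ⊆
      closedBall (A.pt x⁻¹) (1 / C) ∪ circᶜ := by
    intro η hη
    by_cases hc : η ∈ circ
    · left
      have h2 : ‖η‖ = 1 := by
        have : η ∈ sphere (0 : ℂ) 1 := hc
        simpa using this
      have h3 := hB η h2
      have h5 : C * A.kk x < ‖A.act x η - A.pt x‖ := by
        have h6 : A.act x η ∉ closedBall (A.pt x) (C * A.kk x) := hη
        rw [mem_closedBall, dist_eq_norm, not_le] at h6
        exact h6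
      have hk : 0 ≤ A.kk x := by
        rw [← h3]
        positivity
      rw [mem_closedBall, dist_eq_norm]
      by_contra hcon
      rw [not_le] at hcon
      have hb : 0 < ‖η - A.pt x⁻¹‖ := lt_trans (by positivity) hcon
      have h7 : C * A.kk x * ‖η - A.pt x⁻¹‖ < ‖A.act x η - A.pt x‖ * ‖η - A.pt x⁻¹‖ :=
        mul_lt_mul_of_pos_right h5 hb
      rw [h3] at h7
      have h8 : A.kk x ≤ C * A.kk x * ‖η - A.pt x⁻¹‖ := by
        have h9 : C * A.kk x * (1 / C) ≤ C * A.kk x * ‖η - A.pt x⁻¹‖ :=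
          mul_le_mul_of_nonneg_left hcon.le (by positivity)
        have h10 : C * A.kk x * (1 / C) = A.kk x := by
          field_simp
        rwa [h10] at h9
      linarith
    · right
      exact hc
  calc ν (A.act x ⁻¹' (closedBall (A.pt x) (C * A.kk x))ᶜ)
      ≤ ν (closedBall (A.pt x⁻¹) (1 / C) ∪ circᶜ) := measure_mono hsub
    _ ≤ ν (closedBall (A.pt x⁻¹) (1 / C)) + ν circᶜ := measure_union_le _ _
    _ = ν (closedBall (A.pt x⁻¹) (1 / C)) := by rw [hS.supp, add_zero]
    _ ≤ ε := hε _

end Pool.Agent.SG
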