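import Pool.Agent.helper17.SG.SpecP

/-!
# Project sg, module P04: hitting probabilities are positive
-/

set_option autoImplicit false

open MeasureTheory Set Metric Filter Topology
open scoped ENNReal NNReal ComplexConjugate

namespace Pool.Agent.SG

theorem P04 (h1 : P01_stmt) (h3 : P03_stmt) : P04_stmt := by
  intro Γ _ W x y
  obtain ⟨-, -, hself, hstep, hinv⟩ := h1 Γ W
  have key : ∀ g : Γ, W.hit 1 g ≠ 0 := by
    intro g
    have hg : g ∈ Submonoid.closure (W.S : Set Γ) := by
      rw [W.gen]
      exact Submonoid.mem_top g
    induction hg using Submonoid.closure_induction with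
    | mem s hs =>
      have hs' : s ∈ W.S := hs
      by_cases h : (1 : Γ) = s
      · rw [← h, hself]
        exact one_ne_zero
      · rw [hstep 1 s h]
        intro h0
        rw [Finset.sum_eq_zero_iff] at h0
        have h2 := h0 s hs'
        rw [one_mul, hself, mul_one] at h2
        exact W.pos s hs' h2
    | one =>
      rw [hself]
      exact one_ne_zero
    | mul g h _ _ ihg ihh =>
      have h2 := h3 Γ W 1 g (g * h)
      have h4 : W.hit g (g * h) = W.hit 1 h := by
        have := hinv g 1 h
        rwa [mul_one] at this
      rw [h4] at h2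
      intro h0
      rw [h0] at h2
      have h5 := nonpos_iff_eq_zero.1 h2
      rcases mul_eq_zero.1 h5 with h6 | h6
      · exact ihg h6
      · exact ihh h6
  have h6 : W.hit x y = W.hit 1 (x⁻¹ * y) := by
    have := hinv x 1 (x⁻¹ * y)
    rwa [mul_one, mul_inv_cancel_left] at this
  rw [h6]
  exact key _

end Pool.Agent.SG
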